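import Pool.Agent.Lib.MP_4960c7_ag.AR.CTwist
import Pool.Agent.Lib.MP_4960c7_ag.NS.Adm

/-!
# Splitting fields of Weil polynomials: Tate classes on almost all products of abelian varieties over `F_q`

The definitions of the statement are in `Pool/Agent/Lib/MP_4960c7_ag/`: `AR/Defs.lean` (`pol`, `IsWeil`, `tt`,
`Good`), `AR/TDefs.lean` (`JointMaxAngleRank`), `AR/CDefs.lean` (`weilField`, `Generic`), `AR/CFin.lean`
(`GoodTuple`), `AR/CTwist.lean` (`TateForTwists`), `NS/Newt.lean` (`wp`, `IsPolygon`, `IsVertex`,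
`HasNewton`), `NS/Adm.lean` (`IsStratum`) and `WR/Defs.lean` (`IsTate`, `TateGeneratedInDegreeTwo`).
-/

namespace Pool.Agent.Results.MP_4960c7_ag.AlmostAllWeilPolynomials

open Pool.Agent.MP_4960c7.AR Pool.Agent.MP_4960c7.NS

/-- A tuple of real `q`-Weil polynomials is good (`GoodTuple`) if its members are generic and their
splitting fields are pairwise different.  A good tuple, of any length and degrees, has joint maximal angle rank,
and all Tate classes of the abelian varieties which are isogenous over a finite extension to products (any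
multiplicities, supersingular factors allowed) of the abelian varieties which belong to it are
polynomials in those of degree two.

For all `G` and `s` there are `M₀` and `c > 0` such that for all prime powers `q = p ^ a`, all `M` with
`M₀ ≤ M ≤ ⌊√q⌋ + 1`, all `k` and all strata `A_i` (`IsStratum`) of degrees `g_i ≤ G`, `i ≤ k` (any set of real
`q`-Weil polynomials of degree `g_i` which contains the ordinary ones, or the set of those with a given Newton
polygon `lam` which has integral vertices and satisfies `M * p ^ ⌈a * lam K⌉ ≤ (⌊√q⌋ + 1) ^ K`):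

* at most `k^2 M^(-2/7) ∏ #A_i` tuples of the finite non-empty set `∏ A_i` are not good;
* if `k ≤ s`, there are subsets `P_i ⊆ A_i` with `#P_i ≥ c #A_i` such that all tuples, of any length, of
  different members of the union of the `P_i` are good. -/
theorem result :
    (∀ (q k : ℕ) (g : Fin k → ℕ) (b : ∀ i, Fin (g i) → ℤ), 0 < q → (∀ i, IsWeil q (b i)) →
      GoodTuple q b → JointMaxAngleRank q b ∧ TateForTwists q b) ∧
    ∀ G s : ℕ, ∃ (M₀ : ℕ) (c : ℝ), 0 < c ∧ ∀ q p a M : ℕ, p.Prime → q = p ^ a → M₀ ≤ M → M ≤ tt q →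
      ∀ (k : ℕ) (g : Fin k → ℕ) (A : ∀ i, Set (Fin (g i) → ℤ)),
        (∀ i, g i ≤ G) → (∀ i, IsStratum M q p a (A i)) →
        {b : ∀ i, Fin (g i) → ℤ | ∀ i, b i ∈ A i}.Finite ∧ (∀ i, 0 < (A i).ncard) ∧
        ({b : ∀ i, Fin (g i) → ℤ | (∀ i, b i ∈ A i) ∧ ¬ GoodTuple q b}.ncard : ℝ) ≤
          (k : ℝ) ^ 2 * (M : ℝ) ^ (-(2 / 7) : ℝ) * ∏ i, ((A i).ncard : ℝ) ∧
        (k ≤ s → ∃ P : ∀ i, Set (Fin (g i) → ℤ), (∀ i, P i ⊆ A i) ∧
          (∀ i, c * ((A i).ncard : ℝ) ≤ ((P i).ncard : ℝ)) ∧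
          ∀ (n : ℕ) (t : Fin n → Fin k) (b : ∀ j, Fin (g (t j)) → ℤ), (∀ j, b j ∈ P (t j)) →
            Function.Injective (fun j => (⟨g (t j), b j⟩ : Σ m : ℕ, (Fin m → ℤ))) → GoodTuple q b) := by
  refine ⟨fun q k g b hq hW hb =>
    ⟨joint_of_goodTuple hq hb, tateForTwists (tate_of_joint hq hW (joint_of_goodTuple hq hb))⟩,
    fun G s => ?_⟩
  obtain ⟨M₁, h1⟩ := density_all G
  choose c hc M₂ h2 using fun k => positive_all G k
  have hne : (Finset.range (s + 1)).Nonempty := ⟨0, Finset.mem_range.2 (Nat.succ_pos s)⟩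
  refine ⟨max M₁ ((Finset.range (s + 1)).sup M₂), (Finset.range (s + 1)).inf' hne c, ?_, ?_⟩
  · rw [Finset.lt_inf'_iff]
    exact fun k _ => hc k
  · intro q p a M hp hqa hM hMt k g A hG hA
    obtain ⟨hfin, hpos, hbd⟩ := h1 q p a M hp hqa ((le_max_left _ _).trans hM) hMt k g A hG hA
    refine ⟨hfin, hpos, hbd, fun hk => ?_⟩
    have hmem : k ∈ Finset.range (s + 1) := Finset.mem_range.2 (by omega)
    have hM2 : M₂ k ≤ M := (Finset.le_sup hmem).trans ((le_max_right _ _).trans hM)
    obtain ⟨P, hP1, hP2, hP3⟩ := h2 k q p a hp hqa (hM2.trans hMt) g A hG fun i => by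
      refine ⟨(hA i).1, ?_⟩
      rcases (hA i).2 with h | ⟨lam, hl, hint, hs, h⟩
      · exact Or.inl h
      · exact Or.inr ⟨lam, hl, hint, fun K hK0 hK => (Nat.mul_le_mul_right _ hM2).trans (hs K hK0 hK), h⟩
    refine ⟨P, hP1, fun i => le_trans ?_ (hP2 i), hP3⟩
    exact mul_le_mul_of_nonneg_right (Finset.inf'_le _ hmem) (Nat.cast_nonneg _)

end Pool.Agent.Results.MP_4960c7_ag.AlmostAllWeilPolynomials
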