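import Pool.Agent.Lib.MP_4960c7_ag.GK.TS
import Pool.Agent.Lib.MP_4960c7_ag.GK.EX

/-!
# Products of Gauss sums which are pure, and Tate classes
-/

namespace Pool.Agent.Results.MP_4960c7_ag.GaussSumProducts

open GJ GK

/-- For every prime `p`, splitting sets of orders are: the numbers `m > 1` such that `-1` is a power of
`p` modulo each proper divisor of `m` (all primes are among them), and one power of each prime.

Let `D` be a splitting set of orders and `F` a finite field of characteristic `p` with `q` elements.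
A product of an even number of Gauss sums of characters of `F` with orders in `D` is a root of unity
times a power of `√q` if and only if its factors can be paired so that the product of the two Gauss
sums of each pair is a root of unity times `q`; the pairs with this property are described; and if
the Frobenius of a vector space is diagonalisable and its eigenvalues are roots of unity times such
Gauss sums or times `√q`, all Tate classes in the exterior algebra are polynomials in those of degree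
two. -/
theorem result : ∀ (p : ℕ) [Fact p.Prime],
    Splitting p (Proper p) ∧ (∀ k : ℕ → ℕ, Splitting p (PrimePowers k)) ∧
    ∀ D : Set ℕ, Splitting p D → ∀ (F : Type) [Field F] [Fintype F] [Algebra (ZMod p) F],
    (∀ (ι : Type) [Fintype ι] (χ : ι → MulChar F ℂ), (∀ i, orderOf (χ i) ∈ D) →
      Even (Fintype.card ι) →
      (Pure (Fintype.card F) (Fintype.card ι) (∏ i, gs p F (χ i)) ↔
        ∃ σ : ι → ι, ∀ i, σ (σ i) = i ∧ σ i ≠ i ∧
          Pure (Fintype.card F) 2 (gs p F (χ i) * gs p F (χ (σ i))))) ∧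
    (∀ χ φ : MulChar F ℂ, orderOf χ ∈ D → orderOf φ ∈ D →
      (Pure (Fintype.card F) 2 (gs p F χ * gs p F φ) ↔
        (∃ k : ℕ, φ = χ⁻¹ ^ p ^ k) ∨
          ((∃ k : ℕ, χ⁻¹ = χ ^ p ^ k) ∧ ∃ k : ℕ, φ⁻¹ = φ ^ p ^ k))) ∧
    ∀ (C V I : Type) [Field C] [AddCommGroup V] [Module C V] (φ : ℂ →+* C) (Fr : V →ₗ[C] V)
      (b : Module.Basis I C V) (e : I → ℂ), (∀ i, Fr (b i) = φ (e i) • b i) →
      (∀ i, Eig D p F (e i)) → TateGeneratedInDegreeTwo (Fintype.card F) Fr := by
  intro p _
  refine ⟨splitting_proper p, splitting_prime_powers p, ?_⟩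
  intro D hD F _ _ _
  have ne1 : ∀ χ : MulChar F ℂ, orderOf χ ∈ D → χ ≠ 1 := by
    intro χ h h1
    have := (hD.1 _ h).1
    rw [h1, orderOf_one] at this
    exact lt_irrefl _ this
  have key : ∀ χ φ : MulChar F ℂ, orderOf χ ∈ D → orderOf φ ∈ D →
      ((∃ k : ℕ, φ = χ⁻¹ ^ p ^ k) ∨ ((∃ k : ℕ, χ⁻¹ = χ ^ p ^ k) ∧ ∃ k : ℕ, φ⁻¹ = φ ^ p ^ k)) →
      Pure (Fintype.card F) 2 (gs p F χ * gs p F φ) := by
    rintro χ φ hχ hφ (⟨k, rfl⟩ | ⟨⟨k, hk⟩, ⟨l, hl⟩⟩)
    · exact pure_pair χ (ne1 χ hχ) k
    · exact pure_mul (pure_self (ne1 χ hχ) hk) (pure_self (ne1 φ hφ) hl)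
  refine ⟨?_, ?_, ?_⟩
  · intro ι _ χ hχ he
    constructor
    · intro h
      obtain ⟨σ, hσ⟩ := split hD χ hχ he h
      exact ⟨σ, fun i => ⟨(hσ i).1, (hσ i).2.1, key _ _ (hχ i) (hχ (σ i)) (hσ i).2.2⟩⟩
    · rintro ⟨σ, hσ⟩
      exact pure_of_pairs _ σ (fun i => (hσ i).1) fun i => (hσ i).2.2
  · intro χ φ hχ hφ
    constructor
    · intro h
      let ψ : Fin 2 → MulChar F ℂ := ![χ, φ]
      have h1 : ∀ i, orderOf (ψ i) ∈ D := by
        intro i
        fin_cases i
        · exact hχ
        · exact hφ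
      have h2 : Pure (Fintype.card F) (Fintype.card (Fin 2)) (∏ i, gs p F (ψ i)) := by
        rw [Fin.prod_univ_two, Fintype.card_fin]
        exact h
      obtain ⟨σ, hσ⟩ := split hD ψ h1 (by rw [Fintype.card_fin]; exact even_two) h2
      have h3 : σ 0 = 1 := by
        have := (hσ 0).2.1
        omega
      have h4 := (hσ 0).2.2
      rw [h3] at h4
      exact h4
    · exact key χ φ hχ hφ
  · intro C V I _ _ _ φ Fr b e he h
    exact tate hD φ Fr b e he h

end Pool.Agent.Results.MP_4960c7_ag.GaussSumProducts
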