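import Pool.Agent.Lib.MP_4960c7_ag.WR.Tate
import Pool.Agent.Lib.MP_4960c7_ag.WR.Odd

/-!
# Weil numbers of degree twice a prime power over a real field

`K` is a number field, Galois over `ℚ`, `A` a finite set of Weil `q`-numbers in `K`, `w` an absolute value of `K`
with `w q < 1` (so a power of a `p`-adic one, for `q` a power of `p`), `slope x = log w(x) / log w(q)`.

Each `α ∈ A` is of prime power type: there is a real subfield `F` of `K` (for instance `F = ℚ`), over which `α` has
`2 l ^ k` conjugates, `l` a prime, of slopes `1/2 - t x / D` with integers `t x`; the other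
conjugates of `α` over `ℚ` have slope `1/2`; and there is no CM type `P` of the conjugates over `F` such that
`l` divides the sum of the `t (σ x)` over `P` for all `σ` fixing `F`.  It suffices that the sum of the
positive `t x` is odd, and `l = 2` or it is less than `l` (`odd_sum`).  For different factors the fields generated by the
conjugates of slope `< 1/2` have a real intersection (`Separated`; no condition if `A` has one element).

Then all multiplicative relations between the conjugates of `A` and `q` are trivial, and for every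
vector space `V` with a diagonalisable Frobenius whose eigenvalues are conjugates of `A` or supersingular, all
Tate classes in the exterior algebra of `V` are polynomials in those of degree two.
-/

namespace Pool.Agent.Results.MP_4960c7_ag.PrimePowerDegree

open Pool.Agent.MP_4960c7

theorem result {K : Type*} [Field K] [NumberField K] [IsGalois ℚ K] (φ : K →+* ℂ) (q : ℕ)
    (hq : 2 ≤ q) (A : Finset K) (hA : ∀ α ∈ A, IsWeil q α) (hne : ∀ α ∈ A, (q : K) / α ≠ α)
    (w : AbsoluteValue K ℝ) (hw : w (q : K) < 1) (hp : ∀ α ∈ A, PrimePowerType φ w q α)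
    (hsep : ∀ α ∈ A, Separated φ w q A α) :
    OnlyTrivialRelations q (conjsOf A) ∧
      ∀ (C V : Type) [Field C] [AddCommGroup V] [Module C V] (ι : K →+* C) (Fr : V →ₗ[C] V),
        DiagonalisableOver q ι (conjsOf A) Fr → TateGeneratedInDegreeTwo q Fr := by
  have h1 := trivial_of_prime_power φ hq hA hw hne hp hsep
  exact ⟨h1, fun C V _ _ _ ι Fr hFr => tate_of_relations φ hq (stable_conjsOf A)
    (isWeil_conjsOf hA) (div_ne_self_conjsOf hne) h1 ι Fr hFr⟩

/-- A sufficient condition: the sum of the positive `t x` is odd, and `l = 2` or it is less than `l`.  For example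
(`F = ℚ`, `D = 2`): `α` has degree `2 l ^ k`, an odd number `f` of its conjugates are units, `l = 2` or
`f < l`, and the other slopes are `1/2` and `1`. -/
theorem odd_sum {K : Type*} [Field K] [NumberField K] [IsGalois ℚ K] (φ : K →+* ℂ) (q : ℕ)
    (hq : 2 ≤ q) (α : K) (hα : IsWeil q α) (w : AbsoluteValue K ℝ) (hw : w (q : K) < 1)
    (F : IntermediateField ℚ K) (hF : ∀ y ∈ F, (φ y).im = 0) (l k : ℕ) (hl : l.Prime)
    (hcard : (conjsOver F α).card = 2 * l ^ k) (t : K → ℤ) (D : ℕ) (hD : 0 < D)
    (ht : ∀ x ∈ conjsOver F α, pSlope w q x = 1 / 2 - (t x : ℝ) / D)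
    (ht' : ∀ x ∈ conjs α, x ∉ conjsOver F α → pSlope w q x = 1 / 2)
    (hodd : Odd (∑ x ∈ conjsOver F α, max (t x) 0))
    (hlt : l = 2 ∨ ∑ x ∈ conjsOver F α, max (t x) 0 < l) :
    (q : K) / α ≠ α ∧ PrimePowerType φ w q α := by
  obtain ⟨h1, h2⟩ := types_of_odd_lt φ hq hα hw F hF t hD ht hodd hlt
  exact ⟨h1, F, l, k, t, D, hF, hl, hcard, hD, ht, ht', h2⟩

end Pool.Agent.Results.MP_4960c7_ag.PrimePowerDegree
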