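import Pool.Agent.Lib.MP_4960c7_ag.WR.Tate

/-!
# Newton polygons close to the supersingular one

`K` is a number field, Galois over `ℚ`, `A` a finite set of Weil `q`-numbers in `K`, `w` an absolute value of `K`
with `w q < 1` (so a power of a `p`-adic one, for `q` a power of `p`), `slope x = log w(x) / log w(q)`.

Each `α ∈ A` has slope `0`, and the sum of `|slope x - 1/2|` over all conjugates `x` of `α` is at most `2`.  If
it is `2`, each subfield `L` of `ℚ(α)` over which `α` is conjugate to all `y ≠ q / α` of slope `> 1/2` is real.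
For different factors the fields generated by the conjugates of slope `< 1/2` have a real
intersection (`Separated`; no condition if `A` has one element).

Then all multiplicative relations between the conjugates of `A` and `q` are trivial, and for every
vector space `V` with a diagonalisable Frobenius whose eigenvalues are conjugates of `A` or supersingular, all
Tate classes in the exterior algebra of `V` are polynomials in those of degree two.
-/

namespace Pool.Agent.Results.MP_4960c7_ag.SmallDefect

open Pool.Agent.MP_4960c7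

theorem result {K : Type*} [Field K] [NumberField K] [IsGalois ℚ K] (φ : K →+* ℂ) (q : ℕ)
    (hq : 2 ≤ q) (A : Finset K) (hA : ∀ α ∈ A, IsWeil q α) (w : AbsoluteValue K ℝ)
    (hw : w (q : K) < 1) (h0 : ∀ α ∈ A, w α = 1)
    (hs : ∀ α ∈ A, ∑ x ∈ conjs α, |pSlope w q x - 1 / 2| ≤ 2)
    (hL : ∀ α ∈ A, ∑ x ∈ conjs α, |pSlope w q x - 1 / 2| = 2 → ∀ L : IntermediateField ℚ K,
      L ≤ IntermediateField.adjoin ℚ {α} →
      (∀ y ∈ conjs α, 1 / 2 < pSlope w q y → y ≠ (q : K) / α → y ∈ conjsOver L α) →
      ∀ z ∈ L, (φ z).im = 0)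
    (hsep : ∀ α ∈ A, Separated φ w q A α) :
    OnlyTrivialRelations q (conjsOf A) ∧
      ∀ (C V : Type) [Field C] [AddCommGroup V] [Module C V] (ι : K →+* C) (Fr : V →ₗ[C] V),
        DiagonalisableOver q ι (conjsOf A) Fr → TateGeneratedInDegreeTwo q Fr := by
  have h1 := trivial_of_small φ hq hA hw h0 hs hL hsep
  refine ⟨h1, fun C V _ _ _ ι Fr hFr => tate_of_relations φ hq (stable_conjsOf A)
    (isWeil_conjsOf hA) (div_ne_self_conjsOf fun α hα => ?_) h1 ι Fr hFr⟩
  refine div_ne_self hq φ (hA α hα) hw ⟨α, self_mem α, ?_⟩ α (self_mem α)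
  rw [pSlope, h0 α hα, Real.log_one, zero_div]
  norm_num

end Pool.Agent.Results.MP_4960c7_ag.SmallDefect
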